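import Mathlib

namespace Pool.Agent.Results.MP_f92aba_nt.Counter

theorem result : ∃ T S : Finset ℕ, (∀ t ∈ T, 2 ≤ t) ∧ (∀ u ∈ S, 2 ≤ u) ∧ T ≠ S ∧
    ∏ t ∈ T, (t.factorial : ℚ) / (t : ℚ) ^ t = ∏ u ∈ S, (u.factorial : ℚ) / (u : ℚ) ^ u := by
  refine ⟨{4, 10, 12, 15, 18, 21, 32}, {3, 5, 6, 7, 8, 14, 16, 20, 36}, by decide, by decide,
    by decide, by decide +kernel⟩

end Pool.Agent.Results.MP_f92aba_nt.Counter
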